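import Pool.Agent.H207.BT.Stm4
import Pool.Agent.H295.HY211.DIST
import Pool.Agent.H860.HY211.UNIF

/-!
# Project BT of helper207: the concrete data for the abstract root lemma (S_RTC), helper440
-/

set_option autoImplicit false

open Topology Filter Metric Set

namespace Pool.Agent.H440.BT207

open Pool.Agent.H790R3.RB Pool.Agent.H211.HY Pool.Agent.H207.BT
open Pool.Agent.H295.HY211 (wr_iot EE FF WW dif_E dif_F dif_W sg_ne)
open Pool.Agent.H860.HY211 (smul_iot_lc dif_GG)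

theorem iot_lc {τ : Bool} {p : ℂ × ℂ} (h : dn τ p ≠ 0) : iot τ (lc τ p) = (dn τ p)⁻¹ • p := by
  calc iot τ (lc τ p) = (dn τ p)⁻¹ • (dn τ p • iot τ (lc τ p)) := by
        rw [smul_smul, inv_mul_cancel₀ h, one_smul]
    _ = (dn τ p)⁻¹ • p := by rw [smul_iot_lc h]

theorem dn_smul (τ : Bool) (a : ℂ) (p : ℂ × ℂ) : dn τ (a • p) = a * dn τ p := by
  cases τ <;> simp [dn]

theorem cr_smul (a : ℂ) (p q : ℂ × ℂ) : cr (a • p) q = a * cr p q := by
  simp only [cr, Prod.smul_fst, Prod.smul_snd, smul_eq_mul]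
  ring

theorem cr_iot (τ : Bool) (u z : ℂ) (h : dn τ (z, 1) ≠ 0) :
    cr (iot τ u) (z, 1) = sg τ * dn τ (z, 1) * (u - lc τ (z, 1)) := by
  cases τ
  · have hz : z ≠ 0 := h
    simp only [cr, iot, sg, dn, lc, Bool.false_eq_true, if_false]
    field_simp
    ring
  · simp [cr, iot, sg, dn, lc]

theorem dprod {E ι : Type*} [NormedAddCommGroup E] [NormedSpace ℂ E] (s : Finset ι)
    {f : ι → E → ℂ} {S : Set E} (h : ∀ i, DifferentiableOn ℂ (f i) S) :
    DifferentiableOn ℂ (fun q => ∏ i ∈ s, f i q) S := by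
  classical
  induction s using Finset.induction_on with
  | empty =>
    simp only [Finset.prod_empty]
    exact differentiableOn_const _
  | insert a s ha ih =>
    simp only [Finset.prod_insert ha]
    exact (h a).mul ih

theorem ddivOn {E : Type*} [NormedAddCommGroup E] [NormedSpace ℂ E] {A B : E → ℂ} {S : Set E}
    (hA : DifferentiableOn ℂ A S) (hB : DifferentiableOn ℂ B S) (h0 : ∀ x ∈ S, B x ≠ 0) :
    DifferentiableOn ℂ (fun x => A x / B x) S := by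
  simp only [div_eq_mul_inv]
  exact hA.mul (hB.fun_inv h0)

variable {d k : ℕ} {X : (Fin k → ℂ) → CV d} {c : Fin k → (Fin k → ℂ) → ℂ} {ρ : ℝ}

theorem dif_dn (hc : ∀ i, DifferentiableOn ℂ (c i) (ball 0 ρ)) (τ : Bool) (l : Fin k) :
    DifferentiableOn ℂ (fun q : (Fin k → ℂ) × ℂ => dn τ (c l q.1, 1)) (ball 0 ρ ×ˢ univ) := by
  cases τ
  · exact (hc l).comp differentiableOn_fst fun _ hq => hq.1
  · exact differentiableOn_const _

/-- the nonvanishing factors -/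
noncomputable def NN (X : (Fin k → ℂ) → CV d) (c : Fin k → (Fin k → ℂ) → ℂ) (τ τ' : Bool)
    (l : Fin k) (q : (Fin k → ℂ) × ℂ) : ℂ :=
  dn τ (c l q.1, 1) * EE X τ τ' q * ∏ i ∈ Finset.univ.erase l, FF c τ i q

/-- the unit -/
noncomputable def HH1 (X : (Fin k → ℂ) → CV d) (c : Fin k → (Fin k → ℂ) → ℂ) (m : Fin k → ℕ)
    (τ τ' : Bool) (l : Fin k) (q : (Fin k → ℂ) × ℂ) : ℂ :=
  sg τ * sg τ' * (WW X q * (sg τ * dn τ (c l q.1, 1)) ^ m l *
    ∏ i ∈ Finset.univ.erase l, FF c τ i q ^ m i) / ((d : ℂ) * EE X τ τ' q ^ 2)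

theorem t_RTC (hD : Pool.Agent.H211.HY.S_DER) : Pool.Agent.H207.BT.S_RTC := by
  intro d k x₀ c₀ m X c ρ hd hnd hw0 hFac hF l τ hdn
  set τ' := tau (qo x₀ (c₀ l) 1) with hτ'
  set ζ₀ := lc τ (c₀ l, 1) with hζ₀
  have hd0 : (d : ℂ) ≠ 0 := by
    have : d ≠ 0 := by omega
    exact_mod_cast this
  have hmem : (ball (0 : Fin k → ℂ) ρ ×ˢ (univ : Set ℂ)) ∈ 𝓝 ((0 : Fin k → ℂ), ζ₀) :=
    (isOpen_ball.prod isOpen_univ).mem_nhds ⟨mem_ball_self hF.ρ0, mem_univ _⟩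
  have hq0 : qo x₀ (c₀ l) 1 ≠ 0 := qo_ne hnd _ _
  have hiot : iot τ ζ₀ = (dn τ (c₀ l, 1))⁻¹ • ((c₀ l, 1) : ℂ × ℂ) := iot_lc hdn
  have hqo : qo x₀ (c₀ l) 1 = Pool.Agent.H790R3.RB.hF x₀ (c₀ l, 1) := rfl
  -- the value at the centre
  have hE0 : EE X τ τ' (0, ζ₀) ≠ 0 := by
    show dn τ' (Pool.Agent.H790R3.RB.hF (X 0) (iot τ ζ₀)) ≠ 0
    rw [hF.at0, hiot, hF_smul, dn_smul, ← hqo]
    exact mul_ne_zero (pow_ne_zero _ (inv_ne_zero hdn)) (dn_tau_ne hq0)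
  have hF0 : ∀ i ∈ Finset.univ.erase l, FF c τ i (0, ζ₀) ≠ 0 := by
    intro i hi
    show cr (iot τ ζ₀) (c i 0, 1) ≠ 0
    rw [hF.c0, hiot, cr_smul]
    refine mul_ne_zero (inv_ne_zero hdn) ?_
    simp only [cr, mul_one, one_mul]
    intro h
    have h2 : c₀ l = c₀ i := sub_eq_zero.1 h
    exact Finset.ne_of_mem_erase hi (hFac.inj h2).symm
  have hN0 : NN X c τ τ' l (0, ζ₀) ≠ 0 := by
    unfold NN
    refine mul_ne_zero (mul_ne_zero ?_ hE0) (Finset.prod_ne_zero_iff.2 hF0)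
    show dn τ (c l 0, 1) ≠ 0
    rw [hF.c0]
    exact hdn
  have hNd : DifferentiableOn ℂ (NN X c τ τ' l) (ball 0 ρ ×ˢ univ) := by
    unfold NN
    exact ((dif_dn hF.cdf τ l).mul (dif_E hF.dif τ τ')).mul
      (dprod _ fun i => dif_F hF.cdf τ i)
  have hNc : ContinuousAt (NN X c τ τ' l) (0, ζ₀) := hNd.continuousOn.continuousAt hmem
  have hev : ∀ᶠ q in 𝓝 ((0 : Fin k → ℂ), ζ₀), NN X c τ τ' l q ≠ 0 :=
    hNc.eventually_ne hN0
  obtain ⟨ε, hε, hball⟩ := Metric.eventually_nhds_iff_ball.1 hev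
  refine ⟨min ρ ε, lt_min hF.ρ0 hε, min_le_left _ _, HH1 X c m τ τ' l, ?_⟩
  have hN : ∀ s ∈ ball (0 : Fin k → ℂ) (min ρ ε), ∀ u ∈ ball ζ₀ (min ρ ε),
      dn τ (c l s, 1) ≠ 0 ∧ EE X τ τ' (s, u) ≠ 0 ∧
        ∀ i ∈ Finset.univ.erase l, FF c τ i (s, u) ≠ 0 := by
    intro s hs u hu
    have h1 : (s, u) ∈ ball ((0 : Fin k → ℂ), ζ₀) ε := by
      rw [← ball_prod_same]
      exact ⟨ball_subset_ball (min_le_right _ _) hs, ball_subset_ball (min_le_right _ _) hu⟩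
    have h2 := hball _ h1
    unfold NN at h2
    refine ⟨left_ne_zero_of_mul (left_ne_zero_of_mul h2),
      right_ne_zero_of_mul (left_ne_zero_of_mul h2),
      Finset.prod_ne_zero_iff.1 (right_ne_zero_of_mul h2)⟩
  have hζ : ζ₀ ∈ ball ζ₀ (min ρ ε) := mem_ball_self (lt_min hF.ρ0 hε)
  have hsub : (ball (0 : Fin k → ℂ) (min ρ ε) ×ˢ ball ζ₀ (min ρ ε)) ⊆
      (ball 0 ρ ×ˢ (univ : Set ℂ)) := fun q hq =>
    ⟨ball_subset_ball (min_le_left _ _) hq.1, mem_univ _⟩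
  have hdnn : ∀ s ∈ ball (0 : Fin k → ℂ) (min ρ ε), dn τ (c l s, 1) ≠ 0 :=
    fun s hs => (hN s hs ζ₀ hζ).1
  -- the factorisation
  have hwr : ∀ s ∈ ball (0 : Fin k → ℂ) (min ρ ε), ∀ u : ℂ,
      wr (X s) (iot τ u) = WW X (s, u) * ((sg τ * dn τ (c l s, 1)) ^ m l *
        (u - lc τ (c l s, 1)) ^ m l * ∏ i ∈ Finset.univ.erase l, FF c τ i (s, u) ^ m i) := by
    intro s hs u
    have hs' : s ∈ ball (0 : Fin k → ℂ) ρ := ball_subset_ball (min_le_left _ _) hs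
    rw [wr_iot (X s) hd (fun i => c i s) m hFac.deg (hF.fac s hs') τ u,
      ← Finset.mul_prod_erase Finset.univ (fun i => cr (iot τ u) (c i s, 1) ^ m i)
        (Finset.mem_univ l), cr_iot τ u (c l s) (hdnn s hs), ← mul_pow]
    rfl
  refine ⟨?_, ?_, ?_, ?_, ?_⟩
  · -- the critical point
    have hcl : DifferentiableOn ℂ (c l) (ball 0 (min ρ ε)) :=
      (hF.cdf l).mono (ball_subset_ball (min_le_left _ _))
    cases τ
    · show DifferentiableOn ℂ (fun s => 1 / c l s) (ball 0 (min ρ ε))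
      exact ddivOn (differentiableOn_const 1) hcl fun s hs => hdnn s hs
    · show DifferentiableOn ℂ (fun s => c l s / 1) (ball 0 (min ρ ε))
      exact ddivOn hcl (differentiableOn_const 1) fun _ _ => one_ne_zero
  · rintro ⟨s, u⟩ ⟨hs, hu⟩
    have hXs : DifferentiableAt ℂ X s := hF.dif.differentiableAt
      (isOpen_ball.mem_nhds (ball_subset_ball (min_le_left _ _) hs))
    exact (dif_GG hXs τ τ' u (hN s hs u hu).2.1).differentiableWithinAt
  · unfold HH1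
    refine ddivOn ?_ ?_ ?_
    · refine (differentiableOn_const _).mul (((dif_W hF.dif).mono hsub).mul
        ((((differentiableOn_const (sg τ)).mul (dif_dn hF.cdf τ l)).mono hsub).pow (m l)) |>.mul ?_)
      exact dprod _ fun i => ((dif_F hF.cdf τ i).mono hsub).pow (m i)
    · exact (differentiableOn_const _).mul (((dif_E hF.dif τ τ').mono hsub).pow 2)
    · rintro ⟨s, u⟩ ⟨hs, hu⟩
      exact mul_ne_zero hd0 (pow_ne_zero 2 (hN s hs u hu).2.1)
  · rintro ⟨s, u⟩ ⟨hs, hu⟩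
    obtain ⟨h1, h2, h3⟩ := hN s hs u hu
    have hs' : s ∈ ball (0 : Fin k → ℂ) ρ := ball_subset_ball (min_le_left _ _) hs
    unfold HH1
    refine div_ne_zero (mul_ne_zero (mul_ne_zero (sg_ne τ) (sg_ne τ')) (mul_ne_zero
      (mul_ne_zero (hF.ne s hs') (pow_ne_zero _ (mul_ne_zero (sg_ne τ) h1))) ?_))
      (mul_ne_zero hd0 (pow_ne_zero 2 h2))
    exact Finset.prod_ne_zero_iff.2 fun i hi => pow_ne_zero _ (h3 i hi)
  · intro s hs
    refine ⟨hdnn s hs, ?_, fun u hu => ?_⟩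
    · show lc τ' (Pool.Agent.H790R3.RB.hF (X s) (iot τ (lc τ (c l s, 1)))) =
        lc τ' (Pool.Agent.H790R3.RB.hF (X s) (c l s, 1))
      rw [iot_lc (hdnn s hs), hF_smul, lc_smul _ (pow_ne_zero _ (inv_ne_zero (hdnn s hs)))]
    · obtain ⟨h1, h2, h3⟩ := hN s hs u hu
      refine ⟨?_, lc_cr h2, ?_⟩
      · have h4 := (hD d k τ τ' u hd).1 (X s) h2
        convert h4 using 1
        rw [hwr s hs u]
        unfold HH1 EE
        ring
      · intro h4
        rw [hwr s hs u] at h4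
        have hs' : s ∈ ball (0 : Fin k → ℂ) ρ := ball_subset_ball (min_le_left _ _) hs
        have h5 := (mul_eq_zero.1 h4).resolve_left (hF.ne s hs')
        have h6 := (mul_eq_zero.1 h5).resolve_right
          (Finset.prod_ne_zero_iff.2 fun i hi => pow_ne_zero _ (h3 i hi))
        have h7 := (mul_eq_zero.1 h6).resolve_left (pow_ne_zero _ (mul_ne_zero (sg_ne τ) h1))
        exact sub_eq_zero.1 ((pow_eq_zero_iff (Nat.pos_iff_ne_zero.1 (hFac.pos l))).1 h7)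

end Pool.Agent.H440.BT207
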